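import Pool.Agent.Helper1.SQ.Defs
import Pool.Agent.Helper44.Mertens

/-!
Project SQ, module SQ-A: explicit Mertens bound at dyadic points.
-/

set_option autoImplicit false
open Finset
open scoped ArithmeticFunction.vonMangoldt

namespace Pool.Agent.Helper55.SQ

open Pool.Agent.Helper1.SQ

/-- `∑_{p ≤ N} log p / p` -/
noncomputable def AA (N : ℕ) : ℝ := ∑ q ∈ (Ioc 0 N).filter Nat.Prime, Real.log q / q

/-! ### the proper prime powers from above -/

theorem geo_le {p : ℝ} (hp : 2 ≤ p) (K : ℕ) : ∑ k ∈ Ioc 1 K, (1 / p) ^ k ≤ 1 / (p * (p - 1)) := by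
  have h0 : ∀ K : ℕ, ∑ k ∈ Ioc 1 K, (1 / p) ^ k ≤
      1 / (p * (p - 1)) * (1 - (1 / p) ^ (K - 1)) := by
    intro K
    induction K with
    | zero => simp
    | succ n ih =>
      rcases Nat.eq_zero_or_pos n with h | h
      · subst h; simp
      · rw [Finset.sum_Ioc_succ_top (by omega)]
        obtain ⟨m, rfl⟩ : ∃ m, n = m + 1 := ⟨n - 1, by omega⟩
        simp only [Nat.add_sub_cancel] at ih ⊢
        refine (add_le_add_left ih _).trans (le_of_eq ?_)
        have h1 : p ≠ 0 := by linarith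
        have h2 : p - 1 ≠ 0 := by linarith
        have h3 : p ^ m ≠ 0 := pow_ne_zero _ h1
        rw [one_div_pow, one_div_pow, one_div_pow, pow_succ, pow_succ]
        field_simp
        ring
  refine (h0 K).trans ?_
  have h1 : 0 ≤ 1 / (p * (p - 1)) := by
    have : 0 < p - 1 := by linarith
    positivity
  have h2 : 0 ≤ (1 / p) ^ (K - 1) := by positivity
  nlinarith

theorem pp_le (N : ℕ) :
    ∑ d ∈ Ioc 0 N, Λ d / d - AA N ≤
      ∑ p ∈ (Ioc 0 N).filter Nat.Prime, Real.log p / (p * ((p : ℝ) - 1)) := by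
  unfold AA
  have hsplit : ∑ d ∈ Ioc 0 N, Λ d / d = ∑ d ∈ (Ioc 0 N).filter IsPrimePow, Λ d / d := by
    rw [Finset.sum_filter]
    apply Finset.sum_congr rfl
    intro d _
    split_ifs with h
    · rfl
    · rw [ArithmeticFunction.vonMangoldt_eq_zero_iff.mpr h, zero_div]
  have hN0 : (0 : ℝ) ≤ (N : ℝ) := by positivity
  have hpp := Chebyshev.sum_PrimePow_eq_sum_sum (R := ℝ) (fun n => Λ n / n) hN0
  rw [Nat.floor_natCast] at hpp
  set K := ⌊Real.log N / Real.log 2⌋₊ with hK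
  have hfk : ∀ k ∈ Icc 1 K, ∑ p ∈ Ioc 0 ⌊(N : ℝ) ^ ((1 : ℝ) / k)⌋₊ with p.Prime,
      (Λ (p ^ k) / ((p ^ k : ℕ) : ℝ)) =
      ∑ p ∈ Ioc 0 ⌊(N : ℝ) ^ ((1 : ℝ) / k)⌋₊ with p.Prime, Real.log p / (p : ℝ) ^ k := by
    intro k hk
    apply Finset.sum_congr rfl
    intro p hp
    have hk1 := (Finset.mem_Icc.mp hk).1
    rw [ArithmeticFunction.vonMangoldt_apply_pow (by omega),
      ArithmeticFunction.vonMangoldt_apply_prime (Finset.mem_filter.mp hp).2, Nat.cast_pow]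
  rw [hsplit, hpp, Finset.sum_congr rfl hfk]
  rcases Nat.lt_or_ge N 2 with hN2 | hN2
  · have hK0 : K = 0 := by
      rw [hK]
      interval_cases N <;> simp
    have : (Ioc 0 N).filter Nat.Prime = ∅ := by
      ext q
      simp only [Finset.mem_filter, Finset.mem_Ioc, Finset.notMem_empty, iff_false]
      rintro ⟨⟨_, h⟩, hq⟩
      have := hq.two_le
      omega
    rw [hK0, this]
    simp
  have hK1 : 1 ≤ K := by
    rw [hK, Nat.one_le_floor_iff, one_le_div (Real.log_pos (by norm_num))]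
    exact Real.log_le_log (by norm_num) (by exact_mod_cast hN2)
  rw [← Finset.add_sum_Ioc_eq_sum_Icc hK1]
  have h1 : ∑ p ∈ Ioc 0 ⌊(N : ℝ) ^ ((1 : ℝ) / (1 : ℕ))⌋₊ with p.Prime, Real.log p / (p : ℝ) ^ 1
      = ∑ q ∈ (Ioc 0 N).filter Nat.Prime, Real.log q / q := by
    simp
  rw [h1, add_sub_cancel_left]
  have hnn : ∀ k p : ℕ, 0 ≤ Real.log p / (p : ℝ) ^ k := by
    intro k p
    apply div_nonneg (Real.log_natCast_nonneg p) (by positivity)
  calc ∑ k ∈ Ioc 1 K, ∑ p ∈ Ioc 0 ⌊(N : ℝ) ^ ((1 : ℝ) / k)⌋₊ with p.Prime, Real.log p / (p : ℝ) ^ k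
      ≤ ∑ k ∈ Ioc 1 K, ∑ p ∈ (Ioc 0 N).filter Nat.Prime, Real.log p / (p : ℝ) ^ k := by
        apply Finset.sum_le_sum
        intro k hk
        apply Finset.sum_le_sum_of_subset_of_nonneg
        · intro p hp
          rw [Finset.mem_filter, Finset.mem_Ioc] at hp ⊢
          refine ⟨⟨hp.1.1, hp.1.2.trans ?_⟩, hp.2⟩
          have hk1 := (Finset.mem_Ioc.mp hk).1
          have : (N : ℝ) ^ ((1 : ℝ) / k) ≤ N := by
            apply Real.rpow_le_self_of_one_le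
            · exact_mod_cast (by omega : 1 ≤ N)
            · rw [div_le_one (by positivity)]
              exact_mod_cast hk1.le
          calc ⌊(N : ℝ) ^ ((1 : ℝ) / k)⌋₊ ≤ ⌊(N : ℝ)⌋₊ := Nat.floor_le_floor this
            _ = N := Nat.floor_natCast N
        · intro p _ _
          exact hnn k p
    _ = ∑ p ∈ (Ioc 0 N).filter Nat.Prime, ∑ k ∈ Ioc 1 K, Real.log p / (p : ℝ) ^ k :=
        Finset.sum_comm
    _ ≤ ∑ p ∈ (Ioc 0 N).filter Nat.Prime, Real.log p / (p * ((p : ℝ) - 1)) := by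
        apply Finset.sum_le_sum
        intro p hp
        have hpp := (Finset.mem_filter.mp hp).2
        have hp2 : (2 : ℝ) ≤ p := by exact_mod_cast hpp.two_le
        calc ∑ k ∈ Ioc 1 K, Real.log p / (p : ℝ) ^ k
            = Real.log p * ∑ k ∈ Ioc 1 K, (1 / (p : ℝ)) ^ k := by
              rw [Finset.mul_sum]
              apply Finset.sum_congr rfl
              intro k _
              rw [one_div, inv_pow]; rfl
          _ ≤ Real.log p * (1 / (p * ((p : ℝ) - 1))) :=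
              mul_le_mul_of_nonneg_left (geo_le hp2 K) (Real.log_natCast_nonneg p)
          _ = _ := by ring

/-- the tail over all integers -/
theorem tail_le (M : ℕ) (hM : 256 ≤ M) :
    ∑ n ∈ Ioc 256 M, Real.log n / (n * ((n : ℝ) - 1)) ≤
      (Real.log 256 + 257 / 256) / 256 - (Real.log M + 257 / 256) / M := by
  induction M, hM using Nat.le_induction with
  | base => simp
  | succ n hn ih =>
    rw [Finset.sum_Ioc_succ_top (by omega)]
    have hn0 : (256 : ℝ) ≤ n := by exact_mod_cast hn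
    have hn' : (0 : ℝ) < n := by linarith
    have key : Real.log ((n + 1 : ℕ) : ℝ) / (((n + 1 : ℕ) : ℝ) * (((n + 1 : ℕ) : ℝ) - 1)) ≤
        (Real.log n + 257 / 256) / n - (Real.log ((n + 1 : ℕ) : ℝ) + 257 / 256) / ((n + 1 : ℕ) : ℝ) := by
      push_cast
      have h1 : Real.log ((n : ℝ) + 1) ≤ Real.log n + 1 / n := by
        have e : (n : ℝ) + 1 = n * (1 + 1 / n) := by field_simp
        rw [e, Real.log_mul (by positivity) (by positivity)]
        have := Real.log_le_sub_one_of_pos (show (0 : ℝ) < 1 + 1 / n by positivity)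
        linarith
      have h2 : (1 : ℝ) / n ≤ 1 / 256 := one_div_le_one_div_of_le (by norm_num) hn0
      have h3 : ((n : ℝ) + 1) * (1 / n) = 1 + 1 / n := by field_simp
      rw [add_sub_cancel_right, div_sub_div _ _ (by positivity) (by positivity), mul_comm ((n : ℝ) + 1) n,
        div_le_div_iff_of_pos_right (by positivity)]
      nlinarith [mul_le_mul_of_nonneg_left h1 (show (0 : ℝ) ≤ n + 1 by positivity)]
    linarith

/-- `log p ≤ (a / b) log 2` -/
theorem log_le_two {p a b : ℕ} (hp : 0 < p) (hb : 0 < b) (h : p ^ b ≤ 2 ^ a) :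
    Real.log p ≤ (a : ℝ) / b * Real.log 2 := by
  have h1 : Real.log ((p : ℝ) ^ b) ≤ Real.log ((2 : ℝ) ^ a) :=
    Real.log_le_log (by positivity) (by exact_mod_cast h)
  rw [Real.log_pow, Real.log_pow] at h1
  have hb' : (0 : ℝ) < b := by exact_mod_cast hb
  rw [div_mul_eq_mul_div, le_div_iff₀ hb']
  linarith

theorem two_le_log {p a b : ℕ} (hb : 0 < b) (h : 2 ^ a ≤ p ^ b) :
    (a : ℝ) / b * Real.log 2 ≤ Real.log p := by
  have h1 : Real.log ((2 : ℝ) ^ a) ≤ Real.log ((p : ℝ) ^ b) :=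
    Real.log_le_log (by positivity) (by exact_mod_cast h)
  rw [Real.log_pow, Real.log_pow] at h1
  have hb' : (0 : ℝ) < b := by exact_mod_cast hb
  rw [div_mul_eq_mul_div, div_le_iff₀ hb']
  linarith

/-- rational upper bounds of `log p / log 2` -/
def ubn : ℕ → ℕ × ℕ
  | 2 => (1, 1) | 3 => (27, 17) | 5 => (7, 3) | 7 => (17, 6) | 11 => (7, 2) | 13 => (15, 4)
  | 17 => (33, 8) | 19 => (17, 4) | 23 => (14, 3) | 29 => (5, 1) | 31 => (5, 1)
  | n => if n ≤ 64 then (6, 1) else if n ≤ 128 then (7, 1) else (8, 1)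

theorem ubn_spec : ∀ p ∈ (Ioc 0 256).filter Nat.Prime, 0 < (ubn p).2 ∧ p ^ (ubn p).2 ≤ 2 ^ (ubn p).1 := by
  decide +kernel

theorem ubn_sum : ∑ p ∈ (Ioc 0 256).filter Nat.Prime,
    ((ubn p).1 : ℚ) / (ubn p).2 / (p * ((p : ℚ) - 1)) ≤ 10904 / 10000 := by
  decide +kernel

theorem small_le : ∑ p ∈ (Ioc 0 256).filter Nat.Prime, Real.log p / (p * ((p : ℝ) - 1)) ≤
    10904 / 10000 * Real.log 2 := by
  have h1 : ∀ p ∈ (Ioc 0 256).filter Nat.Prime, Real.log p / (p * ((p : ℝ) - 1)) ≤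
      (((ubn p).1 : ℝ) / (ubn p).2 / (p * ((p : ℝ) - 1))) * Real.log 2 := by
    intro p hp
    obtain ⟨h1, h2⟩ := ubn_spec p hp
    have hpp := (Finset.mem_filter.mp hp).2
    have h3 := log_le_two hpp.pos h1 h2
    have h4 : (0 : ℝ) < p * ((p : ℝ) - 1) := by
      have : (2 : ℝ) ≤ p := by exact_mod_cast hpp.two_le
      have : (0 : ℝ) < (p : ℝ) - 1 := by linarith
      positivity
    rw [div_le_iff₀ h4]
    refine h3.trans (le_of_eq ?_)
    rw [mul_right_comm, div_mul_cancel₀ _ h4.ne']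
  refine (Finset.sum_le_sum h1).trans ?_
  rw [← Finset.sum_mul]
  refine mul_le_mul_of_nonneg_right ?_ (Real.log_nonneg (by norm_num))
  have h2 := ubn_sum
  have h3 : ((∑ p ∈ (Ioc 0 256).filter Nat.Prime,
    ((ubn p).1 : ℚ) / (ubn p).2 / (p * ((p : ℚ) - 1)) : ℚ) : ℝ) ≤ ((10904 / 10000 : ℚ) : ℝ) := by
    exact_mod_cast h2
  push_cast at h3
  exact h3

theorem primes_le (N : ℕ) (hN : 256 ≤ N) :
    ∑ p ∈ (Ioc 0 N).filter Nat.Prime, Real.log p / (p * ((p : ℝ) - 1)) ≤ 0.7816 := by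
  have hd : (Ioc 0 N).filter Nat.Prime =
      (Ioc 0 256).filter Nat.Prime ∪ (Ioc 256 N).filter Nat.Prime := by
    rw [← Finset.filter_union, Finset.Ioc_union_Ioc_eq_Ioc (by norm_num) hN]
  have hdis : Disjoint ((Ioc 0 256).filter Nat.Prime) ((Ioc 256 N).filter Nat.Prime) := by
    apply Finset.disjoint_filter_filter
    exact Finset.Ioc_disjoint_Ioc_of_le le_rfl
  rw [hd, Finset.sum_union hdis]
  have h1 : ∑ p ∈ (Ioc 256 N).filter Nat.Prime, Real.log p / (p * ((p : ℝ) - 1)) ≤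
      ∑ n ∈ Ioc 256 N, Real.log n / (n * ((n : ℝ) - 1)) := by
    apply Finset.sum_le_sum_of_subset_of_nonneg (Finset.filter_subset _ _)
    intro n hn _
    have : (1 : ℝ) ≤ n := by
      have := (Finset.mem_Ioc.mp hn).1
      exact_mod_cast (by omega : 1 ≤ n)
    apply div_nonneg (Real.log_natCast_nonneg n)
    apply mul_nonneg (by positivity)
    linarith
  have h2 := tail_le N hN
  have h3 : 0 ≤ (Real.log N + 257 / 256) / N := by
    have := Real.log_natCast_nonneg N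
    exact div_nonneg (by linarith) (Nat.cast_nonneg N)
  have h4 : Real.log 256 = 8 * Real.log 2 := by
    rw [show (256 : ℝ) = 2 ^ 8 by norm_num, Real.log_pow]
    norm_num
  have h5 := small_le
  have h6 := Real.log_two_lt_d9
  rw [h4] at h2
  have h7 : (8 * Real.log 2 + 257 / 256) / 256 ≤ 0.0256 := by
    linarith
  linarith

/-- lower bound -/
theorem AA_lower (N : ℕ) (hN : 256 ≤ N) : Real.log N - 1 - 0.7816 ≤ AA N := by
  have hN0 : (0 : ℝ) < N := by exact_mod_cast (by omega : 0 < N)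
  have h1 := Pool.Agent.Helper44.log_factorial_eq_sum N
  have h2 := Pool.Agent.Helper44.le_log_factorial N
  have h3 : ∑ d ∈ Ioc 0 N, Λ d * ((N / d : ℕ) : ℝ) ≤ N * ∑ d ∈ Ioc 0 N, Λ d / d := by
    rw [Finset.mul_sum]
    apply Finset.sum_le_sum
    intro d hd
    have : ((N / d : ℕ) : ℝ) ≤ N / d := Nat.cast_div_le
    calc Λ d * ((N / d : ℕ) : ℝ) ≤ Λ d * (N / d) :=
          mul_le_mul_of_nonneg_left this ArithmeticFunction.vonMangoldt_nonneg
      _ = N * (Λ d / d) := by ring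
  have h4 := pp_le N
  have h5 := primes_le N hN
  have h6 : N * (Real.log N - 1) ≤ N * ∑ d ∈ Ioc 0 N, Λ d / d := by
    calc (N : ℝ) * (Real.log N - 1) = N * Real.log N - N := by ring
      _ ≤ _ := by linarith
  have := le_of_mul_le_mul_left h6 hN0
  linarith

/-! ### upper bound -/

theorem log_factorial_upper (N : ℕ) (hN : 1 ≤ N) :
    Real.log (N.factorial : ℝ) ≤ (N + 1) * Real.log N - N + 1 := by
  induction N, hN using Nat.le_induction with
  | base => simp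
  | succ n hn ih =>
    have hn' : (0 : ℝ) < n := by exact_mod_cast hn
    rw [Nat.factorial_succ, Nat.cast_mul, Real.log_mul (by positivity) (by positivity)]
    push_cast
    have h1 : Real.log n ≤ Real.log (n + 1) - 1 / (n + 1) := by
      have := Real.log_le_sub_one_of_pos (show (0 : ℝ) < n / (n + 1) by positivity)
      rw [Real.log_div (by positivity) (by positivity)] at this
      have e : (n : ℝ) / (n + 1) - 1 = - (1 / (n + 1)) := by field_simp; ring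
      rw [e] at this
      linarith
    have h2 : ((n : ℝ) + 1) * (1 / (n + 1)) = 1 := by field_simp
    nlinarith [mul_le_mul_of_nonneg_left h1 (show (0 : ℝ) ≤ n + 1 by positivity)]

theorem sum_inv_tel {M N : ℕ} (hM : 1 ≤ M) (h : M ≤ N) :
    ∑ m ∈ Ico M N, (1 : ℝ) / (m * (m + 1)) = 1 / M - 1 / N := by
  induction N, h using Nat.le_induction with
  | base => simp
  | succ n hn ih =>
    rw [Finset.sum_Ico_succ_top hn, ih]
    have h1 : (0 : ℝ) < n := by exact_mod_cast (by omega : 0 < n)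
    push_cast
    field_simp
    ring

theorem sum_harm_le {M N : ℕ} (hM : 1 ≤ M) (h : M ≤ N) :
    ∑ m ∈ Ico M N, (1 : ℝ) / (m + 1) ≤ Real.log N - Real.log M := by
  induction N, h using Nat.le_induction with
  | base => simp
  | succ n hn ih =>
    rw [Finset.sum_Ico_succ_top hn]
    have h1 : (0 : ℝ) < n := by exact_mod_cast (by omega : 0 < n)
    push_cast
    have h2 : Real.log n ≤ Real.log (n + 1) - 1 / (n + 1) := by
      have := Real.log_le_sub_one_of_pos (show (0 : ℝ) < n / (n + 1) by positivity)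
      rw [Real.log_div (by positivity) (by positivity)] at this
      have e : (n : ℝ) / (n + 1) - 1 = - (1 / (n + 1)) := by field_simp; ring
      rw [e] at this
      linarith
    linarith

theorem frac_le {M p : ℕ} (hM : 1 ≤ M) (hp : 0 < p) (hpN : p ≤ 2 * M) :
    ((2 * M : ℕ) : ℝ) / p - ((2 * M / p : ℕ) : ℝ) ≤
      ∑ m ∈ Ico M (2 * M), if p ≤ m then ((2 * M : ℕ) : ℝ) * (1 / (m * (m + 1))) else 0 := by
  have hp0 : (0 : ℝ) < p := by exact_mod_cast hp
  have hM0 : (0 : ℝ) < M := by exact_mod_cast hM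
  rcases Nat.lt_or_ge M p with h | h
  · have h1 : 2 * M / p = 1 := by
      rw [Nat.div_eq_iff hp]
      omega
    rw [h1, ← Finset.sum_filter]
    have h2 : (Ico M (2 * M)).filter (fun m => p ≤ m) = Ico p (2 * M) := by
      ext m
      simp only [Finset.mem_filter, Finset.mem_Ico]
      omega
    rw [h2, ← Finset.mul_sum, sum_inv_tel hp hpN]
    apply le_of_eq
    push_cast
    field_simp
  · have h1 : ((2 * M : ℕ) : ℝ) / p - ((2 * M / p : ℕ) : ℝ) ≤ 1 := by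
      have h3 := Nat.div_add_mod (2 * M) p
      have h4 := Nat.mod_lt (2 * M) hp
      have h6 : ((2 * M : ℕ) : ℝ) ≤ p * ((2 * M / p : ℕ) : ℝ) + p := by
        have : 2 * M ≤ p * (2 * M / p) + p := by omega
        exact_mod_cast this
      rw [sub_le_iff_le_add, div_le_iff₀ hp0]
      linarith
    refine h1.trans ?_
    rw [← Finset.sum_filter]
    have h2 : (Ico M (2 * M)).filter (fun m => p ≤ m) = Ico M (2 * M) := by
      ext m
      simp only [Finset.mem_filter, Finset.mem_Ico]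
      omega
    rw [h2, ← Finset.mul_sum, sum_inv_tel hM (by omega)]
    apply le_of_eq
    push_cast
    field_simp
    ring

theorem frac_sum_le {M : ℕ} (hM : 1 ≤ M) :
    ∑ p ∈ (Ioc 0 (2 * M)).filter Nat.Prime,
      Real.log p * (((2 * M : ℕ) : ℝ) / p - ((2 * M / p : ℕ) : ℝ)) ≤
      ((2 * M : ℕ) : ℝ) * (Real.log 4 * Real.log 2) := by
  have hM0 : (0 : ℝ) < M := by exact_mod_cast hM
  calc ∑ p ∈ (Ioc 0 (2 * M)).filter Nat.Prime,
        Real.log p * (((2 * M : ℕ) : ℝ) / p - ((2 * M / p : ℕ) : ℝ))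
      ≤ ∑ p ∈ (Ioc 0 (2 * M)).filter Nat.Prime, Real.log p *
        ∑ m ∈ Ico M (2 * M), (if p ≤ m then ((2 * M : ℕ) : ℝ) * (1 / (m * (m + 1))) else 0) := by
        apply Finset.sum_le_sum
        intro p hp
        rw [Finset.mem_filter, Finset.mem_Ioc] at hp
        exact mul_le_mul_of_nonneg_left (frac_le hM hp.1.1 hp.1.2) (Real.log_natCast_nonneg p)
    _ = ∑ m ∈ Ico M (2 * M), ((2 * M : ℕ) : ℝ) * (1 / (m * (m + 1))) *
          ∑ p ∈ (Ioc 0 m).filter Nat.Prime, Real.log p := by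
        simp_rw [Finset.mul_sum]
        rw [Finset.sum_comm]
        apply Finset.sum_congr rfl
        intro m hm
        rw [Finset.mem_Ico] at hm
        have h2 : (Ioc 0 m).filter Nat.Prime =
            ((Ioc 0 (2 * M)).filter Nat.Prime).filter (fun p => p ≤ m) := by
          ext p
          simp only [Finset.mem_filter, Finset.mem_Ioc]
          constructor
          · rintro ⟨⟨a, b⟩, c⟩
            exact ⟨⟨⟨a, by omega⟩, c⟩, b⟩
          · rintro ⟨⟨⟨a, b⟩, c⟩, d⟩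
            exact ⟨⟨a, d⟩, c⟩
        conv_rhs => rw [h2, Finset.sum_filter]
        apply Finset.sum_congr rfl
        intro p _
        split_ifs <;> ring
    _ ≤ ∑ m ∈ Ico M (2 * M), ((2 * M : ℕ) : ℝ) * Real.log 4 * (1 / (m + 1)) := by
        apply Finset.sum_le_sum
        intro m hm
        rw [Finset.mem_Ico] at hm
        have hm0 : (0 : ℝ) < m := by exact_mod_cast (by omega : 0 < m)
        have h3 : ∑ p ∈ (Ioc 0 m).filter Nat.Prime, Real.log p ≤ Real.log 4 * m := by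
          have := Chebyshev.theta_le_log4_mul_x (x := (m : ℝ)) hm0.le
          unfold Chebyshev.theta at this
          rwa [Nat.floor_natCast] at this
        calc ((2 * M : ℕ) : ℝ) * (1 / (m * (m + 1))) * ∑ p ∈ (Ioc 0 m).filter Nat.Prime, Real.log p
            ≤ ((2 * M : ℕ) : ℝ) * (1 / (m * (m + 1))) * (Real.log 4 * m) := by
              apply mul_le_mul_of_nonneg_left h3 (by positivity)
          _ = _ := by field_simp
    _ = ((2 * M : ℕ) : ℝ) * Real.log 4 * ∑ m ∈ Ico M (2 * M), (1 : ℝ) / (m + 1) := by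
        rw [Finset.mul_sum]
    _ ≤ ((2 * M : ℕ) : ℝ) * Real.log 4 * Real.log 2 := by
        apply mul_le_mul_of_nonneg_left
        · refine (sum_harm_le hM (by omega)).trans (le_of_eq ?_)
          push_cast
          rw [Real.log_mul (by norm_num) (by positivity)]
          ring
        · have : 0 ≤ Real.log 4 := Real.log_nonneg (by norm_num)
          positivity
    _ = _ := by ring

/-- the proper prime powers used in the lower bound -/
def SS : Finset ℕ := {4, 8, 16, 32, 64, 128, 256, 9, 27, 81, 243, 25, 125, 49, 343, 121, 169}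

theorem lam_pow {p k : ℕ} (hp : p.Prime) (hk : k ≠ 0) : Λ (p ^ k) = Real.log p := by
  rw [ArithmeticFunction.vonMangoldt_apply_pow hk, ArithmeticFunction.vonMangoldt_apply_prime hp]

theorem floor_ge (N d : ℕ) (hd : 0 < d) : (N : ℝ) / d - 1 ≤ ((N / d : ℕ) : ℝ) := by
  have hd0 : (0 : ℝ) < d := by exact_mod_cast hd
  have h3 := Nat.div_add_mod N d
  have h4 := Nat.mod_lt N hd
  have h6 : (N : ℝ) ≤ d * ((N / d : ℕ) : ℝ) + d := by
    have : N ≤ d * (N / d) + d := by omega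
    exact_mod_cast this
  rw [sub_le_iff_le_add, div_le_iff₀ hd0]
  linarith

/-- one term, `p` odd -/
theorem term_ge {p k a b N : ℕ} (hp : p.Prime) (hk : k ≠ 0) (hb : 0 < b) (h : 2 ^ a ≤ p ^ b)
    (hN : 8192 ≤ N) (hd : p ^ k ≤ 8192) :
    (a : ℝ) / b * Real.log 2 * ((1 : ℝ) / (p ^ k : ℕ) - 1 / 8192) * N ≤ Λ (p ^ k) * ((N / p ^ k : ℕ) : ℝ) := by
  rw [lam_pow hp hk]
  have h1 := two_le_log hb h
  have hd0 : 0 < p ^ k := pow_pos hp.pos k
  have h2 := floor_ge N (p ^ k) hd0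
  have hN0 : (8192 : ℝ) ≤ N := by exact_mod_cast hN
  have h3 : ((1 : ℝ) / (p ^ k : ℕ) - 1 / 8192) * N ≤ ((N / p ^ k : ℕ) : ℝ) := by
    refine le_trans ?_ h2
    rw [sub_mul]
    have e1 : (1 : ℝ) / (p ^ k : ℕ) * N = N / (p ^ k : ℕ) := by ring
    rw [e1]
    linarith
  have h4 : 0 ≤ ((1 : ℝ) / (p ^ k : ℕ) - 1 / 8192) * N := by
    apply mul_nonneg _ (by linarith)
    rw [sub_nonneg]
    apply one_div_le_one_div_of_le (by exact_mod_cast hd0)
    exact_mod_cast hd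
  have h5 : 0 ≤ Real.log p := Real.log_natCast_nonneg p
  calc (a : ℝ) / b * Real.log 2 * ((1 : ℝ) / (p ^ k : ℕ) - 1 / 8192) * N
      = ((a : ℝ) / b * Real.log 2) * (((1 : ℝ) / (p ^ k : ℕ) - 1 / 8192) * N) := by ring
    _ ≤ Real.log p * (((1 : ℝ) / (p ^ k : ℕ) - 1 / 8192) * N) := mul_le_mul_of_nonneg_right h1 h4
    _ ≤ _ := mul_le_mul_of_nonneg_left h3 h5

theorem term_two {k i : ℕ} (hk : k ≠ 0) (hki : k ≤ i) :
    Real.log 2 * (1 / 2 ^ k) * ((2 ^ i : ℕ) : ℝ) = Λ (2 ^ k) * ((2 ^ i / 2 ^ k : ℕ) : ℝ) := by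
  rw [lam_pow Nat.prime_two hk, Nat.pow_div hki (by norm_num)]
  push_cast
  have : (2 : ℝ) ^ i = 2 ^ k * 2 ^ (i - k) := by
    rw [← pow_add]; congr 1; omega
  rw [this]
  field_simp

theorem SS_ge {i : ℕ} (hi : 13 ≤ i) :
    0.675 * ((2 ^ i : ℕ) : ℝ) ≤ ∑ d ∈ SS, Λ d * ((2 ^ i / d : ℕ) : ℝ) := by
  have hN : 8192 ≤ 2 ^ i := by
    calc 8192 = 2 ^ 13 := by norm_num
      _ ≤ 2 ^ i := Nat.pow_le_pow_right (by norm_num) hi
  have hs : ∑ d ∈ SS, Λ d * ((2 ^ i / d : ℕ) : ℝ) =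
      Λ (2 ^ 2) * ((2 ^ i / 2 ^ 2 : ℕ) : ℝ) + (Λ (2 ^ 3) * ((2 ^ i / 2 ^ 3 : ℕ) : ℝ) +
      (Λ (2 ^ 4) * ((2 ^ i / 2 ^ 4 : ℕ) : ℝ) + (Λ (2 ^ 5) * ((2 ^ i / 2 ^ 5 : ℕ) : ℝ) +
      (Λ (2 ^ 6) * ((2 ^ i / 2 ^ 6 : ℕ) : ℝ) + (Λ (2 ^ 7) * ((2 ^ i / 2 ^ 7 : ℕ) : ℝ) +
      (Λ (2 ^ 8) * ((2 ^ i / 2 ^ 8 : ℕ) : ℝ) + (Λ (3 ^ 2) * ((2 ^ i / 3 ^ 2 : ℕ) : ℝ) +
      (Λ (3 ^ 3) * ((2 ^ i / 3 ^ 3 : ℕ) : ℝ) + (Λ (3 ^ 4) * ((2 ^ i / 3 ^ 4 : ℕ) : ℝ) +
      (Λ (3 ^ 5) * ((2 ^ i / 3 ^ 5 : ℕ) : ℝ) + (Λ (5 ^ 2) * ((2 ^ i / 5 ^ 2 : ℕ) : ℝ) +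
      (Λ (5 ^ 3) * ((2 ^ i / 5 ^ 3 : ℕ) : ℝ) + (Λ (7 ^ 2) * ((2 ^ i / 7 ^ 2 : ℕ) : ℝ) +
      (Λ (7 ^ 3) * ((2 ^ i / 7 ^ 3 : ℕ) : ℝ) + (Λ (11 ^ 2) * ((2 ^ i / 11 ^ 2 : ℕ) : ℝ) +
      Λ (13 ^ 2) * ((2 ^ i / 13 ^ 2 : ℕ) : ℝ)))))))))))))))) := by
    unfold SS
    rw [Finset.sum_insert (by decide), Finset.sum_insert (by decide), Finset.sum_insert (by decide),
      Finset.sum_insert (by decide), Finset.sum_insert (by decide), Finset.sum_insert (by decide),
      Finset.sum_insert (by decide), Finset.sum_insert (by decide), Finset.sum_insert (by decide),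
      Finset.sum_insert (by decide), Finset.sum_insert (by decide), Finset.sum_insert (by decide),
      Finset.sum_insert (by decide), Finset.sum_insert (by decide), Finset.sum_insert (by decide),
      Finset.sum_insert (by decide), Finset.sum_singleton]
    norm_num
  rw [hs]
  have p3 : Nat.Prime 3 := by norm_num
  have p5 : Nat.Prime 5 := by norm_num
  have p7 : Nat.Prime 7 := by norm_num
  have p11 : Nat.Prime 11 := by norm_num
  have p13 : Nat.Prime 13 := by norm_num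
  have a2 := term_two (k := 2) (i := i) (by norm_num) (by omega)
  have a3 := term_two (k := 3) (i := i) (by norm_num) (by omega)
  have a4 := term_two (k := 4) (i := i) (by norm_num) (by omega)
  have a5 := term_two (k := 5) (i := i) (by norm_num) (by omega)
  have a6 := term_two (k := 6) (i := i) (by norm_num) (by omega)
  have a7 := term_two (k := 7) (i := i) (by norm_num) (by omega)
  have a8 := term_two (k := 8) (i := i) (by norm_num) (by omega)
  have b2 := term_ge (k := 2) (a := 19) (b := 12) p3 (by norm_num) (by norm_num) (by norm_num) hN (by norm_num)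
  have b3 := term_ge (k := 3) (a := 19) (b := 12) p3 (by norm_num) (by norm_num) (by norm_num) hN (by norm_num)
  have b4 := term_ge (k := 4) (a := 19) (b := 12) p3 (by norm_num) (by norm_num) (by norm_num) hN (by norm_num)
  have b5 := term_ge (k := 5) (a := 19) (b := 12) p3 (by norm_num) (by norm_num) (by norm_num) hN (by norm_num)
  have c2 := term_ge (k := 2) (a := 23) (b := 10) p5 (by norm_num) (by norm_num) (by norm_num) hN (by norm_num)
  have c3 := term_ge (k := 3) (a := 23) (b := 10) p5 (by norm_num) (by norm_num) (by norm_num) hN (by norm_num)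
  have d2 := term_ge (k := 2) (a := 14) (b := 5) p7 (by norm_num) (by norm_num) (by norm_num) hN (by norm_num)
  have d3 := term_ge (k := 3) (a := 14) (b := 5) p7 (by norm_num) (by norm_num) (by norm_num) hN (by norm_num)
  have e2 := term_ge (k := 2) (a := 17) (b := 5) p11 (by norm_num) (by norm_num) (by norm_num) hN (by norm_num)
  have f2 := term_ge (k := 2) (a := 11) (b := 3) p13 (by norm_num) (by norm_num) (by norm_num) hN (by norm_num)
  have hl := Real.log_two_gt_d9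
  have hN0 : (0 : ℝ) < (2 : ℝ) ^ i := by positivity
  have hLX : 0.6931471803 * (2 : ℝ) ^ i ≤ Real.log 2 * (2 : ℝ) ^ i :=
    mul_le_mul_of_nonneg_right hl.le hN0.le
  push_cast at b2 b3 b4 b5 c2 c3 d2 d3 e2 f2 a2 a3 a4 a5 a6 a7 a8 ⊢
  rw [← a2, ← a3, ← a4, ← a5, ← a6, ← a7, ← a8]
  have hh : 0.675 * (2 : ℝ) ^ i ≤ Real.log 2 * (1 / 2 ^ 2) * 2 ^ i + (Real.log 2 * (1 / 2 ^ 3) * 2 ^ i +
      (Real.log 2 * (1 / 2 ^ 4) * 2 ^ i + (Real.log 2 * (1 / 2 ^ 5) * 2 ^ i +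
      (Real.log 2 * (1 / 2 ^ 6) * 2 ^ i + (Real.log 2 * (1 / 2 ^ 7) * 2 ^ i +
      (Real.log 2 * (1 / 2 ^ 8) * 2 ^ i +
      (19 / 12 * Real.log 2 * (1 / 3 ^ 2 - 1 / 8192) * 2 ^ i +
      (19 / 12 * Real.log 2 * (1 / 3 ^ 3 - 1 / 8192) * 2 ^ i +
      (19 / 12 * Real.log 2 * (1 / 3 ^ 4 - 1 / 8192) * 2 ^ i +
      (19 / 12 * Real.log 2 * (1 / 3 ^ 5 - 1 / 8192) * 2 ^ i +
      (23 / 10 * Real.log 2 * (1 / 5 ^ 2 - 1 / 8192) * 2 ^ i +
      (23 / 10 * Real.log 2 * (1 / 5 ^ 3 - 1 / 8192) * 2 ^ i +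
      (14 / 5 * Real.log 2 * (1 / 7 ^ 2 - 1 / 8192) * 2 ^ i +
      (14 / 5 * Real.log 2 * (1 / 7 ^ 3 - 1 / 8192) * 2 ^ i +
      (17 / 5 * Real.log 2 * (1 / 11 ^ 2 - 1 / 8192) * 2 ^ i +
      11 / 3 * Real.log 2 * (1 / 13 ^ 2 - 1 / 8192) * 2 ^ i))))))))))))))) := by
    have e : Real.log 2 * (1 / 2 ^ 2) * (2 : ℝ) ^ i + (Real.log 2 * (1 / 2 ^ 3) * 2 ^ i +
      (Real.log 2 * (1 / 2 ^ 4) * 2 ^ i + (Real.log 2 * (1 / 2 ^ 5) * 2 ^ i +
      (Real.log 2 * (1 / 2 ^ 6) * 2 ^ i + (Real.log 2 * (1 / 2 ^ 7) * 2 ^ i +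
      (Real.log 2 * (1 / 2 ^ 8) * 2 ^ i +
      (19 / 12 * Real.log 2 * (1 / 3 ^ 2 - 1 / 8192) * 2 ^ i +
      (19 / 12 * Real.log 2 * (1 / 3 ^ 3 - 1 / 8192) * 2 ^ i +
      (19 / 12 * Real.log 2 * (1 / 3 ^ 4 - 1 / 8192) * 2 ^ i +
      (19 / 12 * Real.log 2 * (1 / 3 ^ 5 - 1 / 8192) * 2 ^ i +
      (23 / 10 * Real.log 2 * (1 / 5 ^ 2 - 1 / 8192) * 2 ^ i +
      (23 / 10 * Real.log 2 * (1 / 5 ^ 3 - 1 / 8192) * 2 ^ i +
      (14 / 5 * Real.log 2 * (1 / 7 ^ 2 - 1 / 8192) * 2 ^ i +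
      (14 / 5 * Real.log 2 * (1 / 7 ^ 3 - 1 / 8192) * 2 ^ i +
      (17 / 5 * Real.log 2 * (1 / 11 ^ 2 - 1 / 8192) * 2 ^ i +
      11 / 3 * Real.log 2 * (1 / 13 ^ 2 - 1 / 8192) * 2 ^ i))))))))))))))) =
      ((1 / 2 ^ 2 + 1 / 2 ^ 3 + 1 / 2 ^ 4 + 1 / 2 ^ 5 + 1 / 2 ^ 6 + 1 / 2 ^ 7 + 1 / 2 ^ 8) +
        19 / 12 * (1 / 3 ^ 2 + 1 / 3 ^ 3 + 1 / 3 ^ 4 + 1 / 3 ^ 5 - 4 / 8192) +
        23 / 10 * (1 / 5 ^ 2 + 1 / 5 ^ 3 - 2 / 8192) + 14 / 5 * (1 / 7 ^ 2 + 1 / 7 ^ 3 - 2 / 8192) +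
        17 / 5 * (1 / 11 ^ 2 - 1 / 8192) + 11 / 3 * (1 / 13 ^ 2 - 1 / 8192)) *
        (Real.log 2 * 2 ^ i) := by ring
    rw [e]
    refine le_trans ?_ (mul_le_mul_of_nonneg_left hLX (by norm_num))
    rw [← mul_assoc]
    refine mul_le_mul_of_nonneg_right ?_ hN0.le
    norm_num
  linarith

theorem AA_upper {i : ℕ} (hi : 13 ≤ i) :
    AA (2 ^ i) ≤ Real.log ((2 ^ i : ℕ) : ℝ) - 1 + Real.log 4 * Real.log 2 - 0.675 + 0.0014 := by
  obtain ⟨j, rfl⟩ : ∃ j, i = j + 1 := ⟨i - 1, by omega⟩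
  obtain ⟨N, hN⟩ : ∃ N, N = 2 ^ (j + 1) := ⟨_, rfl⟩
  have hM : N = 2 * 2 ^ j := by rw [hN, pow_succ]; ring
  have hN8 : 8192 ≤ N := by
    rw [hN]
    calc 8192 = 2 ^ 13 := by norm_num
      _ ≤ 2 ^ (j + 1) := Nat.pow_le_pow_right (by norm_num) hi
  have hN0 : (0 : ℝ) < N := by exact_mod_cast (by omega : 0 < N)
  rw [← hN]
  have h1 := Pool.Agent.Helper44.log_factorial_eq_sum N
  have h2 := log_factorial_upper N (by omega)
  have h3 := SS_ge hi
  rw [← hN] at h3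
  have h4 := frac_sum_le (M := 2 ^ j) (Nat.one_le_two_pow)
  rw [← hM] at h4
  have h5 : ∑ d ∈ SS, Λ d * ((N / d : ℕ) : ℝ) ≤
      ∑ d ∈ (Ioc 0 N).filter (fun d => ¬ Nat.Prime d), Λ d * ((N / d : ℕ) : ℝ) := by
    apply Finset.sum_le_sum_of_subset_of_nonneg
    · intro d hd
      have hd2 : 0 < d ∧ d ≤ 8192 ∧ ¬ Nat.Prime d := by
        revert d
        decide +kernel
      rw [Finset.mem_filter, Finset.mem_Ioc]
      exact ⟨⟨hd2.1, by omega⟩, hd2.2.2⟩
    · intro d _ _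
      exact mul_nonneg ArithmeticFunction.vonMangoldt_nonneg (by positivity)
  have h6 := Finset.sum_filter_add_sum_filter_not (Ioc 0 N) Nat.Prime
    (fun d => Λ d * ((N / d : ℕ) : ℝ))
  have h7 : ∑ p ∈ (Ioc 0 N).filter Nat.Prime, Λ p * ((N / p : ℕ) : ℝ) =
      ∑ p ∈ (Ioc 0 N).filter Nat.Prime, Real.log p * ((N / p : ℕ) : ℝ) := by
    apply Finset.sum_congr rfl
    intro p hp
    rw [ArithmeticFunction.vonMangoldt_apply_prime (Finset.mem_filter.mp hp).2]
  have h8 : (N : ℝ) * AA N = ∑ p ∈ (Ioc 0 N).filter Nat.Prime, Real.log p * ((N / p : ℕ) : ℝ) +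
      ∑ p ∈ (Ioc 0 N).filter Nat.Prime, Real.log p * ((N : ℝ) / p - ((N / p : ℕ) : ℝ)) := by
    unfold AA
    rw [Finset.mul_sum, ← Finset.sum_add_distrib]
    apply Finset.sum_congr rfl
    intro p _
    ring
  have h9 : Real.log N + 1 ≤ 0.0014 * N := by
    have key : ∀ i : ℕ, 13 ≤ i → (i : ℝ) * 0.6931471808 + 1 ≤ 0.0014 * 2 ^ i := by
      intro i hi
      induction i, hi using Nat.le_induction with
      | base => norm_num
      | succ n hn ih =>
        rw [pow_succ]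
        push_cast
        have : (1000 : ℝ) ≤ 2 ^ n := by
          calc (1000 : ℝ) ≤ 2 ^ 13 := by norm_num
            _ ≤ 2 ^ n := pow_le_pow_right₀ (by norm_num) hn
        linarith
    have hk := key (j + 1) hi
    rw [hN]
    push_cast at hk ⊢
    rw [Real.log_pow]
    have hl := Real.log_two_lt_d9
    push_cast
    have hj : (0 : ℝ) ≤ (j : ℝ) + 1 := by positivity
    nlinarith [mul_le_mul_of_nonneg_left hl.le hj]
  have h10 : (N : ℝ) * AA N ≤
      N * (Real.log N - 1 + Real.log 4 * Real.log 2 - 0.675 + 0.0014) := by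
    nlinarith
  exact le_of_mul_le_mul_left h10 hN0

theorem mertA : MertA := by
  intro i1 i2 h1 h2
  have hu := AA_upper (h1.trans h2)
  have hl := AA_lower (2 ^ i1) (by
    calc 256 = 2 ^ 8 := by norm_num
      _ ≤ 2 ^ i1 := Nat.pow_le_pow_right (by norm_num) (by omega))
  have hd : (Ioc 0 (2 ^ i2)).filter Nat.Prime = (Ioc 0 (2 ^ i1)).filter Nat.Prime ∪ PB i1 i2 := by
    unfold PB
    rw [← Finset.filter_union, Finset.Ioc_union_Ioc_eq_Ioc (Nat.zero_le _)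
      (Nat.pow_le_pow_right (by norm_num) h2)]
  have hdis : Disjoint ((Ioc 0 (2 ^ i1)).filter Nat.Prime) (PB i1 i2) := by
    unfold PB
    apply Finset.disjoint_filter_filter
    exact Finset.Ioc_disjoint_Ioc_of_le le_rfl
  have hs : AA (2 ^ i2) = AA (2 ^ i1) + ∑ p ∈ PB i1 i2, Real.log p / p := by
    unfold AA
    rw [hd, Finset.sum_union hdis]
  have e1 : Real.log ((2 ^ i1 : ℕ) : ℝ) = i1 * Real.log 2 := by
    push_cast; rw [Real.log_pow]
  have e2 : Real.log ((2 ^ i2 : ℕ) : ℝ) = i2 * Real.log 2 := by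
    push_cast; rw [Real.log_pow]
  have e4 : Real.log 4 = 2 * Real.log 2 := by
    rw [show (4 : ℝ) = 2 ^ 2 by norm_num, Real.log_pow]; norm_num
  rw [e1] at hl
  rw [e2, e4] at hu
  have hl2 := Real.log_two_lt_d9
  have hl3 := Real.log_two_gt_d9
  have h5 : 2 * Real.log 2 * Real.log 2 ≤ 0.961 := by nlinarith
  have : ((i2 : ℝ) - i1) * Real.log 2 = i2 * Real.log 2 - i1 * Real.log 2 := by ring
  rw [this]
  linarith

end Pool.Agent.Helper55.SQ
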